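import Pool.Agent.Run7.h851.T.Iface

/-! Lagrange bases for the mixed determinant with three kinds of columns (port of `H337R2/LZ/A5.lean`). -/

open Polynomial Pool.Agent.H337R2

namespace Pool.Agent.Run7.h576.T

open Pool.Agent.Run7.h851.T

noncomputable section

/-! ### the coefficient matrix of a Lagrange basis -/

private def A5_PL {N : ℕ} (x : Fin N → ℚ) (k : Fin N) : ℚ[X] :=
  ∏ l ∈ Finset.univ.erase k, (X - C (x l))

private lemma A5_deg {N : ℕ} (x : Fin N → ℚ) (k : Fin N) : (A5_PL x k).natDegree < N := by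
  unfold A5_PL
  rw [Polynomial.natDegree_prod_of_monic _ _ (fun i _ => Polynomial.monic_X_sub_C _)]
  simp only [Polynomial.natDegree_X_sub_C, Finset.sum_const, smul_eq_mul, mul_one]
  rw [Finset.card_erase_of_mem (Finset.mem_univ _), Finset.card_univ, Fintype.card_fin]
  have := k.2
  omega

private lemma A5_eval {N : ℕ} (x : Fin N → ℚ) (k : Fin N) (y : ℚ) :
    (A5_PL x k).eval y = ∏ l ∈ Finset.univ.erase k, (y - x l) := by
  unfold A5_PL
  rw [Polynomial.eval_prod]
  simp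

private lemma A5_eval_ne {N : ℕ} (x : Fin N → ℚ) {k l : Fin N} (h : k ≠ l) :
    (A5_PL x k).eval (x l) = 0 := by
  rw [A5_eval]
  exact Finset.prod_eq_zero (Finset.mem_erase.2 ⟨h.symm, Finset.mem_univ _⟩) (sub_self _)

private lemma A5_prod_sq {m : ℕ} (x : Fin m → ℚ) :
    (∏ k : Fin m, ∏ l ∈ Finset.univ.erase k, (x k - x l)) ^ 2 =
      (∏ i : Fin m, ∏ j ∈ Finset.Ioi i, (x j - x i)) ^ 4 := by
  have h1 : (∏ k : Fin m, ∏ l ∈ Finset.univ.erase k, (x k - x l)) ^ 2 =
      ∏ k : Fin m, ∏ l ∈ Finset.univ.erase k, (x l - x k) ^ 2 := by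
    rw [← Finset.prod_pow]
    apply Finset.prod_congr rfl; intro k _
    rw [← Finset.prod_pow]
    apply Finset.prod_congr rfl; intro l _
    ring
  have h2 : ∀ k : Fin m, ∏ l ∈ Finset.univ.erase k, (x l - x k) ^ 2 =
      (∏ l ∈ Finset.Ioi k, (x l - x k) ^ 2) * ∏ l ∈ Finset.Iio k, (x l - x k) ^ 2 := by
    intro k
    rw [← Finset.prod_union]
    · congr 1
      ext l
      simp only [Finset.mem_erase, Finset.mem_univ, and_true, Finset.mem_union, Finset.mem_Ioi,
        Finset.mem_Iio]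
      constructor
      · intro h
        rcases lt_trichotomy k l with h' | h' | h'
        · left; exact h'
        · exact absurd h'.symm h
        · right; exact h'
      · rintro (h | h)
        · exact ne_of_gt h
        · exact ne_of_lt h
    · rw [Finset.disjoint_left]
      intro l h3 h4
      rw [Finset.mem_Ioi] at h3
      rw [Finset.mem_Iio] at h4
      exact absurd (lt_trans h3 h4) (lt_irrefl _)
  have h3 : ∏ k : Fin m, ∏ l ∈ Finset.Iio k, (x l - x k) ^ 2 =
      ∏ l : Fin m, ∏ k ∈ Finset.Ioi l, (x k - x l) ^ 2 := by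
    rw [Finset.prod_comm' (t' := Finset.univ) (s' := fun l => Finset.Ioi l)]
    · apply Finset.prod_congr rfl; intro l _
      apply Finset.prod_congr rfl; intro k _
      ring
    · intro k l
      simp
  rw [h1]
  simp_rw [h2]
  rw [Finset.prod_mul_distrib, h3]
  simp_rw [Finset.prod_pow]
  ring

private lemma A5_coef_sq {N : ℕ} (x : Fin N → ℚ) (hx : Function.Injective x) :
    (Matrix.of fun a k : Fin N => (A5_PL x a).coeff (k : ℕ)).det ^ 2 =
      |∏ k : Fin N, ∏ l ∈ Finset.univ.erase k, (x k - x l)| := by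
  set Cm := (Matrix.of fun (a : Fin N) (k : Fin N) => (A5_PL x a).coeff (k : ℕ)) with hCm
  set V := ∏ i : Fin N, ∏ j ∈ Finset.Ioi i, (x j - x i) with hV
  have hV0 : V ≠ 0 := by
    rw [hV]
    rw [Finset.prod_ne_zero_iff]; intro i _
    rw [Finset.prod_ne_zero_iff]; intro j hj
    rw [Finset.mem_Ioi] at hj
    exact sub_ne_zero.2 (fun h => absurd (hx h) (ne_of_gt hj))
  have h1 : Cm * (Matrix.vandermonde x).transpose =
      Matrix.diagonal (fun k => ∏ l ∈ Finset.univ.erase k, (x k - x l)) := by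
    ext k l
    rw [Matrix.mul_apply]
    have h2 : ∑ j : Fin N, Cm k j * (Matrix.vandermonde x).transpose j l =
        (A5_PL x k).eval (x l) := by
      rw [Polynomial.eval_eq_sum_range' (A5_deg x k)]
      rw [← Fin.sum_univ_eq_sum_range (fun i => (A5_PL x k).coeff i * x l ^ i) N]
      rfl
    rw [h2]
    by_cases h : k = l
    · subst h
      rw [Matrix.diagonal_apply_eq, A5_eval]
    · rw [Matrix.diagonal_apply_ne _ h, A5_eval_ne x h]
  have h2 : Cm.det * V = ∏ k : Fin N, ∏ l ∈ Finset.univ.erase k, (x k - x l) := by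
    have := congrArg Matrix.det h1
    rw [Matrix.det_mul, Matrix.det_transpose, Matrix.det_vandermonde, Matrix.det_diagonal] at this
    exact this
  have h4 := A5_prod_sq x
  have h3 : Cm.det ^ 2 = V ^ 2 := by
    have h4' := h4
    rw [← h2, ← hV] at h4'
    have h5 : V ^ 2 * (Cm.det ^ 2 - V ^ 2) = 0 := by linear_combination h4'
    rcases mul_eq_zero.1 h5 with h6 | h6
    · exact absurd h6 (pow_ne_zero 2 hV0)
    · exact sub_eq_zero.1 h6
  have h7 : |∏ k : Fin N, ∏ l ∈ Finset.univ.erase k, (x k - x l)| ^ 2 = (V ^ 2) ^ 2 := by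
    rw [sq_abs, h4]; ring
  rw [h3]
  exact ((pow_left_inj₀ (abs_nonneg _) (sq_nonneg _) two_ne_zero).1 h7).symm

/-! ### blocks of nodes -/

private def A5_emb (a N : ℕ) : Fin N ↪ ℕ :=
  ⟨fun l => a + l.1, fun l l' h => Fin.ext (by simpa using h)⟩

private lemma A5_map (a N : ℕ) : Finset.univ.map (A5_emb a N) = Finset.Ico a (a + N) := by
  ext i
  simp only [Finset.mem_map, Finset.mem_univ, true_and, Finset.mem_Ico]
  constructor
  · rintro ⟨l, rfl⟩
    change a ≤ a + l.1 ∧ a + l.1 < a + N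
    omega
  · intro h
    exact ⟨⟨i - a, by omega⟩, by change a + (i - a) = i; omega⟩

private lemma A5_erase (a N : ℕ) (k : Fin N) :
    (Finset.Ico a (a + N)).erase (a + k.1) = (Finset.univ.erase k).map (A5_emb a N) := by
  rw [Finset.map_erase, A5_map]
  rfl

private lemma A5_lag (a N : ℕ) (z : ℕ → ℚ) (k : Fin N) :
    lag (Finset.Ico a (a + N)) z (a + k.1) = A5_PL (fun l : Fin N => z (a + l.1)) k := by
  unfold lag Pool.Agent.LZ.lag A5_PL
  rw [A5_erase, Finset.prod_map]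
  rfl

private lemma A5_VD (a N : ℕ) (z : ℕ → ℚ) :
    VD (Finset.Ico a (a + N)) z = ((|∏ k : Fin N, ∏ l ∈ Finset.univ.erase k,
      (z (a + k.1) - z (a + l.1))| : ℚ) : ℝ) := by
  unfold VD Pool.Agent.LZ.VD
  conv_lhs => rw [← A5_map]
  rw [Finset.prod_map, Finset.abs_prod, Rat.cast_prod]
  apply Finset.prod_congr rfl
  intro k _
  rw [Finset.abs_prod, Rat.cast_prod]
  have h : (Finset.univ.map (A5_emb a N)).erase ((A5_emb a N) k) =
      (Finset.univ.erase k).map (A5_emb a N) := by rw [Finset.map_erase]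
  rw [h, Finset.prod_map]
  apply Finset.prod_congr rfl
  intro l _
  rw [Rat.cast_abs]
  rfl

/-- the coefficient matrix of `N` polynomials -/
private def A5_cm (N : ℕ) (P : ℕ → ℚ[X]) : Matrix (Fin N) (Fin N) ℝ :=
  Matrix.of fun a k : Fin N => (((P a.1).coeff k.1 : ℚ) : ℝ)

private lemma A5_cm_sq (a N : ℕ) (z : ℕ → ℚ) (hz : Set.InjOn z (Finset.Ico a (a + N))) :
    (A5_cm N (fun i => lag (Finset.Ico a (a + N)) z (a + i))).det ^ 2 =
      VD (Finset.Ico a (a + N)) z := by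
  have hx : Function.Injective (fun l : Fin N => z (a + l.1)) := by
    intro l l' h
    have h1 := hz (by simp) (by simp) h
    exact Fin.ext (by omega)
  have h1 := A5_coef_sq _ hx
  rw [A5_VD, ← h1]
  have h2 : A5_cm N (fun i => lag (Finset.Ico a (a + N)) z (a + i)) =
      (Matrix.of fun b k : Fin N => (A5_PL (fun l : Fin N => z (a + l.1)) b).coeff (k : ℕ)).map
        (Rat.castHom ℝ) := by
    ext b k
    change (((lag (Finset.Ico a (a + N)) z (a + b.1)).coeff k.1 : ℚ) : ℝ) = _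
    rw [A5_lag]
    rfl
  rw [h2]
  have h3 := RingHom.map_det (Rat.castHom ℝ)
    (Matrix.of fun b k : Fin N => (A5_PL (fun l : Fin N => z (a + l.1)) b).coeff (k : ℕ))
  rw [RingHom.mapMatrix_apply] at h3
  rw [← h3, Rat.cast_pow]
  rfl

/-! ### change of bases -/

private lemma A5_expand (m : ℕ) (P : ℚ[X]) (h : P.natDegree < m) :
    P = ∑ k ∈ Finset.range m, (P.coeff k) • (X ^ k : ℚ[X]) := by
  conv_lhs => rw [P.as_sum_range' m h]
  apply Finset.sum_congr rfl
  intro k _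
  rw [← Polynomial.C_mul_X_pow_eq_monomial, Polynomial.smul_eq_C_mul]

private lemma A5_left (A : ℚ[X] →ₗ[ℚ] ℝ) (m : ℕ) (P R : ℚ[X]) (h : P.natDegree < m) :
    A (P * R) = ∑ k : Fin m, ((P.coeff k.1 : ℚ) : ℝ) * A (X ^ k.1 * R) := by
  conv_lhs => rw [A5_expand m P h, Finset.sum_mul, map_sum]
  rw [Fin.sum_univ_eq_sum_range (fun k => ((P.coeff k : ℚ) : ℝ) * A (X ^ k * R)) m]
  apply Finset.sum_congr rfl
  intro k _
  rw [smul_mul_assoc, map_smul, Rat.smul_def]

private lemma A5_right (A : ℚ[X] →ₗ[ℚ] ℝ) (m : ℕ) (P R : ℚ[X]) (h : P.natDegree < m) :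
    A (R * P) = ∑ k : Fin m, A (R * X ^ k.1) * ((P.coeff k.1 : ℚ) : ℝ) := by
  rw [mul_comm, A5_left A m P R h]
  apply Finset.sum_congr rfl
  intro k _
  rw [mul_comm, mul_comm R]

private def A5_e (m : ℕ) : Fin m ⊕ (Fin m ⊕ Fin m) ≃ Fin (3 * m) :=
  (Equiv.sumCongr (Equiv.refl (Fin m)) finSumFinEquiv).trans
    (finSumFinEquiv.trans (finCongr (by omega : m + (m + m) = 3 * m)))

private lemma A5_e_1 (m : ℕ) (k : Fin m) : (A5_e m (Sum.inl k)).1 = k.1 := rfl
private lemma A5_e_2 (m : ℕ) (k : Fin m) : (A5_e m (Sum.inr (Sum.inl k))).1 = m + k.1 := rfl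
private lemma A5_e_3 (m : ℕ) (k : Fin m) : (A5_e m (Sum.inr (Sum.inr k))).1 = m + (m + k.1) := rfl

private lemma A5_gen (A B C' : ℚ[X] →ₗ[ℚ] ℝ) (m : ℕ) (Q P P' P'' : ℕ → ℚ[X])
    (hQ : ∀ i < 3 * m, (Q i).natDegree < 3 * m)
    (hP : ∀ i < m, (P i).natDegree < m)
    (hP' : ∀ i < m, (P' i).natDegree < m)
    (hP'' : ∀ i < m, (P'' i).natDegree < m) :
    (Matrix.of fun i j : Fin (3 * m) =>
      if j.1 < m then A (Q i.1 * P j.1) else if j.1 < 2 * m then B (Q i.1 * P' (j.1 - m))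
      else C' (Q i.1 * P'' (j.1 - 2 * m))).det =
    (A5_cm (3 * m) Q).det * (Matrix.of fun i j : Fin (3 * m) =>
      if j.1 < m then A (X ^ i.1 * X ^ j.1) else if j.1 < 2 * m then B (X ^ i.1 * X ^ (j.1 - m))
      else C' (X ^ i.1 * X ^ (j.1 - 2 * m))).det *
      ((A5_cm m P).det * ((A5_cm m P').det * (A5_cm m P'').det)) := by
  obtain ⟨W, hW⟩ : ∃ W : Matrix (Fin m ⊕ (Fin m ⊕ Fin m)) (Fin m ⊕ (Fin m ⊕ Fin m)) ℝ,
    W = Matrix.fromBlocks (A5_cm m P).transpose 0 0
      (Matrix.fromBlocks (A5_cm m P').transpose 0 0 (A5_cm m P'').transpose) := ⟨_, rfl⟩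
  obtain ⟨T, hT⟩ : ∃ T : Matrix (Fin (3 * m)) (Fin (3 * m)) ℝ, T = Matrix.of fun i j =>
      if j.1 < m then A (X ^ i.1 * X ^ j.1) else if j.1 < 2 * m then B (X ^ i.1 * X ^ (j.1 - m))
      else C' (X ^ i.1 * X ^ (j.1 - 2 * m)) := ⟨_, rfl⟩
  have hUT : ∀ i l : Fin (3 * m), (A5_cm (3 * m) Q * T) i l =
      if l.1 < m then A (Q i.1 * X ^ l.1) else if l.1 < 2 * m then B (Q i.1 * X ^ (l.1 - m))
      else C' (Q i.1 * X ^ (l.1 - 2 * m)) := by
    intro i l
    rw [Matrix.mul_apply]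
    by_cases h : l.1 < m
    · rw [if_pos h, A5_left A (3 * m) (Q i.1) (X ^ l.1) (hQ _ i.2)]
      apply Finset.sum_congr rfl
      intro k _
      rw [A5_cm, hT, Matrix.of_apply, Matrix.of_apply, if_pos h]
    · by_cases h' : l.1 < 2 * m
      · rw [if_neg h, if_pos h', A5_left B (3 * m) (Q i.1) (X ^ (l.1 - m)) (hQ _ i.2)]
        apply Finset.sum_congr rfl
        intro k _
        rw [A5_cm, hT, Matrix.of_apply, Matrix.of_apply, if_neg h, if_pos h']
      · rw [if_neg h, if_neg h', A5_left C' (3 * m) (Q i.1) (X ^ (l.1 - 2 * m)) (hQ _ i.2)]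
        apply Finset.sum_congr rfl
        intro k _
        rw [A5_cm, hT, Matrix.of_apply, Matrix.of_apply, if_neg h, if_neg h']
  have hG : (Matrix.of fun i j : Fin (3 * m) =>
      if j.1 < m then A (Q i.1 * P j.1) else if j.1 < 2 * m then B (Q i.1 * P' (j.1 - m))
      else C' (Q i.1 * P'' (j.1 - 2 * m))) =
      A5_cm (3 * m) Q * T * W.submatrix (A5_e m).symm (A5_e m).symm := by
    ext i j
    rw [Matrix.mul_apply, Matrix.of_apply, ← (A5_e m).sum_comp]
    simp only [hUT, Matrix.submatrix_apply, Equiv.symm_apply_apply]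
    obtain ⟨j', rfl⟩ := (A5_e m).surjective j
    rw [Fintype.sum_sum_type, Fintype.sum_sum_type, Equiv.symm_apply_apply, hW]
    rcases j' with j' | j' | j'
    · have hj : (A5_e m (Sum.inl j')).1 < m := j'.2
      rw [if_pos hj]
      simp only [Matrix.fromBlocks_apply₂₁, Matrix.zero_apply, mul_zero, Finset.sum_const_zero, add_zero]
      refine (A5_right A m (P j'.1) (Q i.1) (hP _ j'.2)).trans ?_
      apply Finset.sum_congr rfl
      intro l _
      have hl : (A5_e m (Sum.inl l)).1 < m := l.2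
      rw [if_pos hl, Matrix.fromBlocks_apply₁₁]
      rfl
    · have hj : ¬ (A5_e m (Sum.inr (Sum.inl j'))).1 < m := by rw [A5_e_2]; omega
      have hj' : (A5_e m (Sum.inr (Sum.inl j'))).1 < 2 * m := by rw [A5_e_2]; omega
      rw [if_neg hj, if_pos hj']
      simp only [Matrix.fromBlocks_apply₁₂, Matrix.fromBlocks_apply₂₂, Matrix.fromBlocks_apply₁₁,
        Matrix.fromBlocks_apply₂₁, Matrix.zero_apply, mul_zero, Finset.sum_const_zero, add_zero, zero_add]
      have e1 : (A5_e m (Sum.inr (Sum.inl j'))).1 - m = j'.1 := by rw [A5_e_2]; omega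
      rw [e1]
      refine (A5_right B m (P' j'.1) (Q i.1) (hP' _ j'.2)).trans ?_
      apply Finset.sum_congr rfl
      intro l _
      have hl : ¬ (A5_e m (Sum.inr (Sum.inl l))).1 < m := by rw [A5_e_2]; omega
      have hl' : (A5_e m (Sum.inr (Sum.inl l))).1 < 2 * m := by rw [A5_e_2]; omega
      have e2 : (A5_e m (Sum.inr (Sum.inl l))).1 - m = l.1 := by rw [A5_e_2]; omega
      rw [if_neg hl, if_pos hl', e2]
      rfl
    · have hj : ¬ (A5_e m (Sum.inr (Sum.inr j'))).1 < m := by rw [A5_e_3]; omega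
      have hj' : ¬ (A5_e m (Sum.inr (Sum.inr j'))).1 < 2 * m := by rw [A5_e_3]; omega
      rw [if_neg hj, if_neg hj']
      simp only [Matrix.fromBlocks_apply₁₂, Matrix.fromBlocks_apply₂₂, Matrix.fromBlocks_apply₁₁,
        Matrix.fromBlocks_apply₂₁, Matrix.zero_apply, mul_zero, Finset.sum_const_zero, add_zero, zero_add]
      have e1 : (A5_e m (Sum.inr (Sum.inr j'))).1 - 2 * m = j'.1 := by rw [A5_e_3]; omega
      rw [e1]
      refine (A5_right C' m (P'' j'.1) (Q i.1) (hP'' _ j'.2)).trans ?_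
      apply Finset.sum_congr rfl
      intro l _
      have hl : ¬ (A5_e m (Sum.inr (Sum.inr l))).1 < m := by rw [A5_e_3]; omega
      have hl' : ¬ (A5_e m (Sum.inr (Sum.inr l))).1 < 2 * m := by rw [A5_e_3]; omega
      have e2 : (A5_e m (Sum.inr (Sum.inr l))).1 - 2 * m = l.1 := by rw [A5_e_3]; omega
      rw [if_neg hl, if_neg hl', e2]
      rfl
  rw [hG, Matrix.det_mul, Matrix.det_mul, Matrix.det_submatrix_equiv_self, hW,
    Matrix.det_fromBlocks_zero₂₁, Matrix.det_fromBlocks_zero₂₁, Matrix.det_transpose, Matrix.det_transpose,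
    Matrix.det_transpose, hT]

/-- Lagrange bases for the mixed determinant with three kinds of columns; the columns `B`, `C'` use the same nodes -/
theorem A5_lagrange3 (hA1 : St_A1_real) (A B C' : ℚ[X] →ₗ[ℚ] ℚ) (θ₁ θ₂ : ℝ) (m : ℕ) (z : ℕ → ℚ)
    (hz : Set.InjOn z (Finset.range (3 * m))) (hz' : Set.InjOn z (Finset.Ico (3 * m) (4 * m))) :
    ((Matrix.of fun i j : Fin (3 * m) =>
      if j.1 < m then
        ((A (lag (Finset.range (3 * m)) z i.1 * lag (Finset.range m) z j.1) : ℚ) : ℝ) +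
          θ₁ * ((B (lag (Finset.range (3 * m)) z i.1 * lag (Finset.range m) z j.1) : ℚ) : ℝ) +
          θ₂ * ((C' (lag (Finset.range (3 * m)) z i.1 * lag (Finset.range m) z j.1) : ℚ) : ℝ)
      else if j.1 < 2 * m then
        ((B (lag (Finset.range (3 * m)) z i.1 * lag (Finset.Ico (3 * m) (4 * m)) z (2 * m + j.1)) : ℚ) : ℝ)
      else ((C' (lag (Finset.range (3 * m)) z i.1 *
        lag (Finset.Ico (3 * m) (4 * m)) z (m + j.1)) : ℚ) : ℝ)).det) ^ 2 =
    ((MD A B C' m : ℚ) : ℝ) ^ 2 * (VD (Finset.range (3 * m)) z * VD (Finset.range m) z *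
      VD (Finset.Ico (3 * m) (4 * m)) z ^ 2) := by
  let A' : ℚ[X] →ₗ[ℚ] ℝ :=
    { toFun := fun F => ((A F : ℚ) : ℝ) + θ₁ * ((B F : ℚ) : ℝ) + θ₂ * ((C' F : ℚ) : ℝ)
      map_add' := fun F G => by rw [map_add, map_add, map_add]; push_cast; ring
      map_smul' := fun c F => by
        rw [map_smul, map_smul, map_smul, smul_eq_mul, smul_eq_mul, smul_eq_mul, RingHom.id_apply, Rat.smul_def]
        push_cast
        ring }
  let B' : ℚ[X] →ₗ[ℚ] ℝ :=
    { toFun := fun F => ((B F : ℚ) : ℝ)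
      map_add' := fun F G => by rw [map_add]; push_cast; ring
      map_smul' := fun c F => by
        rw [map_smul, smul_eq_mul, RingHom.id_apply, Rat.smul_def]
        push_cast
        ring }
  let D' : ℚ[X] →ₗ[ℚ] ℝ :=
    { toFun := fun F => ((C' F : ℚ) : ℝ)
      map_add' := fun F G => by rw [map_add]; push_cast; ring
      map_smul' := fun c F => by
        rw [map_smul, smul_eq_mul, RingHom.id_apply, Rat.smul_def]
        push_cast
        ring }
  have hA' : ∀ F, A' F = ((A F : ℚ) : ℝ) + θ₁ * ((B F : ℚ) : ℝ) + θ₂ * ((C' F : ℚ) : ℝ) := fun _ => rfl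
  have hB' : ∀ F, B' F = ((B F : ℚ) : ℝ) := fun _ => rfl
  have hD' : ∀ F, D' F = ((C' F : ℚ) : ℝ) := fun _ => rfl
  have hr1 : Finset.range (3 * m) = Finset.Ico 0 (0 + 3 * m) := by
    rw [Finset.range_eq_Ico, zero_add]
  have hr2 : Finset.range m = Finset.Ico 0 (0 + m) := by rw [Finset.range_eq_Ico, zero_add]
  have hr3 : Finset.Ico (3 * m) (4 * m) = Finset.Ico (3 * m) (3 * m + m) := by
    rw [show 4 * m = 3 * m + m by ring]
  have hdeg : ∀ (a N : ℕ), ∀ i < N, (lag (Finset.Ico a (a + N)) z (a + i)).natDegree < N := by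
    intro a N i hi
    have := A5_lag a N z ⟨i, hi⟩
    simp only at this
    rw [this]
    exact A5_deg _ _
  have hmon : ∀ i : ℕ, ((X : ℚ[X]) ^ i).Monic ∧ ((X : ℚ[X]) ^ i).natDegree = i := fun i =>
    ⟨monic_X_pow i, natDegree_X_pow i⟩
  have hT := hA1 A B C' θ₁ θ₂ m (fun i => X ^ i) (fun i => X ^ i)
    (fun i => X ^ i) (fun i _ => hmon i) (fun i _ => hmon i) (fun i _ => hmon i)
  have hG := A5_gen A' B' D' m (fun i => lag (Finset.Ico 0 (0 + 3 * m)) z (0 + i))
    (fun i => lag (Finset.Ico 0 (0 + m)) z (0 + i)) (fun i => lag (Finset.Ico (3 * m) (3 * m + m)) z (3 * m + i))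
    (fun i => lag (Finset.Ico (3 * m) (3 * m + m)) z (3 * m + i))
    (hdeg 0 (3 * m)) (hdeg 0 m) (hdeg (3 * m) m) (hdeg (3 * m) m)
  have hmat : (Matrix.of fun i j : Fin (3 * m) =>
      if j.1 < m then
        ((A (lag (Finset.range (3 * m)) z i.1 * lag (Finset.range m) z j.1) : ℚ) : ℝ) +
          θ₁ * ((B (lag (Finset.range (3 * m)) z i.1 * lag (Finset.range m) z j.1) : ℚ) : ℝ) +
          θ₂ * ((C' (lag (Finset.range (3 * m)) z i.1 * lag (Finset.range m) z j.1) : ℚ) : ℝ)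
      else if j.1 < 2 * m then
        ((B (lag (Finset.range (3 * m)) z i.1 * lag (Finset.Ico (3 * m) (4 * m)) z (2 * m + j.1)) : ℚ) : ℝ)
      else ((C' (lag (Finset.range (3 * m)) z i.1 *
        lag (Finset.Ico (3 * m) (4 * m)) z (m + j.1)) : ℚ) : ℝ)) =
      (Matrix.of fun i j : Fin (3 * m) =>
      if j.1 < m then A' (lag (Finset.Ico 0 (0 + 3 * m)) z (0 + i.1) *
        lag (Finset.Ico 0 (0 + m)) z (0 + j.1))
      else if j.1 < 2 * m then B' (lag (Finset.Ico 0 (0 + 3 * m)) z (0 + i.1) *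
        lag (Finset.Ico (3 * m) (3 * m + m)) z (3 * m + (j.1 - m)))
      else D' (lag (Finset.Ico 0 (0 + 3 * m)) z (0 + i.1) *
        lag (Finset.Ico (3 * m) (3 * m + m)) z (3 * m + (j.1 - 2 * m)))) := by
    ext i j
    rw [Matrix.of_apply, Matrix.of_apply, ← hr1, ← hr2, ← hr3]
    by_cases h : j.1 < m
    · rw [if_pos h, if_pos h, hA', zero_add, zero_add]
    · by_cases h' : j.1 < 2 * m
      · rw [if_neg h, if_pos h', if_neg h, if_pos h', hB', zero_add,
          show 3 * m + (j.1 - m) = 2 * m + j.1 by omega]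
      · rw [if_neg h, if_neg h', if_neg h, if_neg h', hD', zero_add,
          show 3 * m + (j.1 - 2 * m) = m + j.1 by omega]
  have hmon' : (Matrix.of fun i j : Fin (3 * m) =>
      if j.1 < m then A' (X ^ i.1 * X ^ j.1) else if j.1 < 2 * m then B' (X ^ i.1 * X ^ (j.1 - m))
      else D' (X ^ i.1 * X ^ (j.1 - 2 * m))).det =
      ((MD A B C' m : ℚ) : ℝ) := hT
  rw [hmat]
  have hG' : (Matrix.of fun i j : Fin (3 * m) =>
      if j.1 < m then A' (lag (Finset.Ico 0 (0 + 3 * m)) z (0 + i.1) *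
        lag (Finset.Ico 0 (0 + m)) z (0 + j.1))
      else if j.1 < 2 * m then B' (lag (Finset.Ico 0 (0 + 3 * m)) z (0 + i.1) *
        lag (Finset.Ico (3 * m) (3 * m + m)) z (3 * m + (j.1 - m)))
      else D' (lag (Finset.Ico 0 (0 + 3 * m)) z (0 + i.1) *
        lag (Finset.Ico (3 * m) (3 * m + m)) z (3 * m + (j.1 - 2 * m)))).det = _ := hG
  rw [hG', hmon', mul_pow, mul_pow, mul_pow, mul_pow, A5_cm_sq 0 (3 * m) z (by rw [← hr1]; exact hz),
    A5_cm_sq 0 m z (by
      rw [← hr2]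
      exact hz.mono (by intro i hi; simp only [Finset.coe_range, Set.mem_Iio] at hi ⊢; omega)),
    A5_cm_sq (3 * m) m z (by
      rw [← hr3]
      exact hz'), hr1, hr2, hr3]
  ring

end

end Pool.Agent.Run7.h576.T
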